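import Pool.Agent.U398.MV.Stm5

/-!
Package KLF of project MV5, analytic part: summation of the block estimates.
-/

set_option autoImplicit false

namespace Pool.Agent.U803.MV5

open Finset Pool.Agent.U398.MV

lemma Mf_diff {s t : ℝ} (hs : 0 < s) (hst : s ≤ t) :
    Mf t - Mf s ≤ (t - s) / (2 * Real.pi) * Real.log (t / (2 * Real.pi)) := by
  unfold Mf
  have hpi : 0 < 2 * Real.pi := by positivity
  set u := s / (2 * Real.pi) with hu
  set v := t / (2 * Real.pi) with hv
  have hu0 : 0 < u := by positivity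
  have hv0 : 0 < v := by
    rw [hv]
    exact div_pos (by linarith) hpi
  have h1 : (t - s) / (2 * Real.pi) = v - u := by
    rw [hu, hv, sub_div]
  rw [h1]
  have h2 : Real.log v - Real.log u ≤ v / u - 1 := by
    rw [← Real.log_div hv0.ne' hu0.ne']
    exact Real.log_le_sub_one_of_pos (by positivity)
  have h3 : u * (Real.log v - Real.log u) ≤ v - u := by
    calc u * (Real.log v - Real.log u) ≤ u * (v / u - 1) := mul_le_mul_of_nonneg_left h2 hu0.le
      _ = v - u := by field_simp
  nlinarith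

lemma two_pi_ge : (6 : ℝ) ≤ 2 * Real.pi := by
  have := Real.pi_gt_three
  linarith

lemma two_pi_le : 2 * Real.pi ≤ (7 : ℝ) := by
  have := Real.pi_lt_d2
  linarith

lemma log_ge_one {T : ℝ} (hT : 10 ≤ T) : 1 ≤ Real.log T := by
  rw [Real.le_log_iff_exp_le (by linarith)]
  have := Real.exp_one_lt_d9
  linarith

lemma Ncrude {N : ℝ → ℕ} {g : ℕ → ℝ} {C1 : ℝ} (h : Cnt N g C1) (hC1 : 1 ≤ C1) {T : ℝ} (hT : 10 ≤ T) :
    (N T : ℝ) ≤ (1 + C1) * (T * Real.log T) := by
  have h1 := (abs_le.1 (h.rvm T hT)).2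
  unfold sg at h1
  have hL := log_ge_one hT
  have hpi := two_pi_ge
  have h2 : Mf T ≤ T * Real.log T := by
    unfold Mf
    have h3 : Real.log (T / (2 * Real.pi)) ≤ Real.log T := by
      apply Real.log_le_log (by positivity)
      apply div_le_self (by linarith)
      linarith
    have h4 : 0 ≤ T / (2 * Real.pi) := by positivity
    have h5 : T / (2 * Real.pi) ≤ T := div_le_self (by linarith) (by linarith)
    calc T / (2 * Real.pi) * Real.log (T / (2 * Real.pi)) - T / (2 * Real.pi)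
        ≤ T / (2 * Real.pi) * Real.log T := by nlinarith
      _ ≤ T * Real.log T := mul_le_mul_of_nonneg_right h5 (by linarith)
  have h6 : C1 * Real.log T ≤ C1 * (T * Real.log T) := by
    apply mul_le_mul_of_nonneg_left _ (by linarith)
    nlinarith
  nlinarith

lemma Nwin {N : ℝ → ℕ} {g : ℕ → ℝ} {C1 : ℝ} (h : Cnt N g C1) (hC1 : 1 ≤ C1) : ∃ C2 : ℝ, 1 ≤ C2 ∧
    ∀ T : ℝ, 10 ≤ T → ∀ s : ℝ, s ≤ T → (N (s + 1) : ℝ) - N (s - 1) ≤ C2 * Real.log T := by
  refine ⟨2 * (1 + 2 * C1) + N 12, ?_, ?_⟩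
  · have : (0 : ℝ) ≤ N 12 := by positivity
    linarith
  intro T hT s hs
  have hL := log_ge_one hT
  have hN12 : (0 : ℝ) ≤ N 12 := by positivity
  rcases le_total s 11 with hs11 | hs11
  · have h1 : (N (s + 1) : ℝ) ≤ N 12 := by exact_mod_cast h.mono (by linarith)
    have h2 : (0 : ℝ) ≤ N (s - 1) := by positivity
    nlinarith
  · have h1 := (abs_le.1 (h.rvm (s + 1) (by linarith))).2
    have h2 := (abs_le.1 (h.rvm (s - 1) (by linarith))).1
    unfold sg at h1 h2
    have h3 := Mf_diff (s := s - 1) (t := s + 1) (by linarith) (by linarith)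
    have hpi := two_pi_ge
    have hls : 1 ≤ Real.log (s + 1) := log_ge_one (by linarith)
    have h4 : (s + 1 - (s - 1)) / (2 * Real.pi) * Real.log ((s + 1) / (2 * Real.pi)) ≤ Real.log (s + 1) := by
      have h5 : Real.log ((s + 1) / (2 * Real.pi)) ≤ Real.log (s + 1) := by
        apply Real.log_le_log
        · apply div_pos <;> linarith
        · exact div_le_self (by linarith) (by linarith)
      have h6 : (s + 1 - (s - 1)) / (2 * Real.pi) = 2 / (2 * Real.pi) := by
        congr 1
        ring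
      rw [h6]
      have h7 : 2 / (2 * Real.pi) ≤ 1 := by
        rw [div_le_one (by linarith)]
        linarith
      have h8 : 0 ≤ 2 / (2 * Real.pi) := by positivity
      calc 2 / (2 * Real.pi) * Real.log ((s + 1) / (2 * Real.pi)) ≤ 2 / (2 * Real.pi) * Real.log (s + 1) :=
            mul_le_mul_of_nonneg_left h5 h8
        _ ≤ 1 * Real.log (s + 1) := mul_le_mul_of_nonneg_right h7 (by linarith)
        _ = _ := one_mul _
    have h9 : Real.log (s - 1) ≤ Real.log (s + 1) := Real.log_le_log (by linarith) (by linarith)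
    have h10 : Real.log (s + 1) ≤ 2 * Real.log T := by
      have h11 : Real.log (T ^ 2) = 2 * Real.log T := by
        rw [Real.log_pow]
        norm_num
      rw [← h11]
      apply Real.log_le_log (by linarith)
      nlinarith
    have h12 : C1 * Real.log (s - 1) ≤ C1 * Real.log (s + 1) := mul_le_mul_of_nonneg_left h9 (by linarith)
    have h13 : (1 + 2 * C1) * Real.log (s + 1) ≤ (1 + 2 * C1) * (2 * Real.log T) :=
      mul_le_mul_of_nonneg_left h10 (by linarith)
    have h14 : 0 ≤ (N 12 : ℝ) * Real.log T := by positivity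
    nlinarith

/-- product of window counts -/
noncomputable def ff (N : ℝ → ℕ) (g : ℕ → ℝ) {m : ℕ} (x y : Fin m → ℝ) (n : ℕ) : ℝ :=
  ∏ i, ((N (g n + y i) : ℝ) - N (g n + x i))

lemma ff_nonneg {N : ℝ → ℕ} {g : ℕ → ℝ} (h : Monotone N) {m : ℕ} {x y : Fin m → ℝ} (hxy : ∀ i, x i ≤ y i)
    (n : ℕ) : 0 ≤ ff N g x y n := by
  unfold ff
  refine Finset.prod_nonneg fun i _ => ?_
  have : (N (g n + x i) : ℝ) ≤ N (g n + y i) := by exact_mod_cast h (by linarith [hxy i])
  linarith

lemma ff_le {N : ℝ → ℕ} {g : ℕ → ℝ} {C1 C2 : ℝ} (h : Cnt N g C1)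
    (h2 : ∀ T : ℝ, 10 ≤ T → ∀ s : ℝ, s ≤ T → (N (s + 1) : ℝ) - N (s - 1) ≤ C2 * Real.log T) {m : ℕ}
    {x y : Fin m → ℝ} (hx : ∀ i, -1 ≤ x i) (hxy : ∀ i, x i ≤ y i) (hy : ∀ i, y i ≤ 1) {T : ℝ} (hT : 10 ≤ T)
    {n : ℕ} (hn : n ∈ Finset.Ioc 0 (N T)) : ff N g x y n ≤ (C2 * Real.log T) ^ m := by
  rw [Finset.mem_Ioc] at hn
  have hgn : g n ≤ T := (h.gc n hn.1 T).2 hn.2
  have hm := h.mono
  unfold ff
  calc ∏ i, ((N (g n + y i) : ℝ) - N (g n + x i)) ≤ ∏ _i : Fin m, (C2 * Real.log T) := by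
        refine Finset.prod_le_prod (fun i _ => ?_) (fun i _ => ?_)
        · have : (N (g n + x i) : ℝ) ≤ N (g n + y i) := by exact_mod_cast hm (by linarith [hxy i])
          linarith
        · have h3 : (N (g n + y i) : ℝ) ≤ N (g n + 1) := by exact_mod_cast hm (by linarith [hy i])
          have h4 : (N (g n - 1) : ℝ) ≤ N (g n + x i) := by exact_mod_cast hm (by linarith [hx i])
          linarith [h2 T hT (g n) hgn]
    _ = _ := by rw [Finset.prod_const, Finset.card_univ, Fintype.card_fin]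

/-- the block estimate with constants `C0`, `T00` -/
def Blk (N : ℝ → ℕ) (g : ℕ → ℝ) (m : ℕ) (C0 T00 : ℝ) : Prop :=
  ∀ T : ℝ, T00 ≤ T → ∀ X : ℝ, 1 / Real.log T ≤ X → X ≤ 1 →
  ∀ x y : Fin m → ℝ, (∀ i, -X ≤ x i ∧ x i ≤ y i ∧ y i ≤ X) →
  |(∑ n ∈ Finset.Ioc (N T) (N (2 * T)), ff N g x y n) -
      T * Real.log T / (2 * Real.pi) * ∏ i, ((y i - x i) * Real.log T / (2 * Real.pi))| ≤
    C0 * (X * Real.log T) ^ (m - 1) * (T * Real.log T)

lemma chain {N : ℝ → ℕ} {g : ℕ → ℝ} (hmono : Monotone N) {m : ℕ} {C0 T00 : ℝ} (hC0 : 0 < C0)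
    (hB : Blk N g m C0 T00) {T X : ℝ} (hT : 10 ≤ T) (hT0 : T00 ≤ √T) (hX2 : 2 ≤ X * Real.log T) (hX1 : X ≤ 1)
    {x y : Fin m → ℝ} (hxy : ∀ i, -X ≤ x i ∧ x i ≤ y i ∧ y i ≤ X) (K : ℕ) : √T ≤ T / 2 ^ K →
    |(∑ n ∈ Finset.Ioc (N (T / 2 ^ K)) (N T), ff N g x y n) -
      Real.log T / (2 * Real.pi) * (∏ i, ((y i - x i) * Real.log T / (2 * Real.pi))) * (T - T / 2 ^ K)| ≤
    C0 * (X * Real.log T) ^ (m - 1) * Real.log T * (T - T / 2 ^ K) +
      ((m : ℝ) + 1) * (∏ i, ((y i - x i) * Real.log T / (2 * Real.pi))) * (2 * T - ((K : ℝ) + 2) * (T / 2 ^ K)) := by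
  set L := Real.log T with hL
  have hL1 : 1 ≤ L := log_ge_one hT
  have hL0 : 0 < L := by linarith
  set P := ∏ i, ((y i - x i) * L / (2 * Real.pi)) with hP
  have hP0 : 0 ≤ P := by
    rw [hP]
    refine Finset.prod_nonneg fun i _ => ?_
    have := (hxy i).2.1
    apply div_nonneg _ (by positivity)
    exact mul_nonneg (by linarith) hL0.le
  have hXL0 : 0 < X := by
    by_contra hcon
    push Not at hcon
    have : X * L ≤ 0 := mul_nonpos_of_nonpos_of_nonneg hcon hL0.le
    linarith
  have hpi := two_pi_ge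
  induction K with
  | zero =>
    intro _
    simp
  | succ K ih =>
    intro hK
    set T' := T / 2 ^ (K + 1) with hT'
    have h2T' : 2 * T' = T / 2 ^ K := by
      rw [hT', pow_succ]
      field_simp
    have hT'0 : 0 < T' := by positivity
    have ih' := ih (by rw [← h2T']; linarith)
    rw [← h2T'] at ih'
    have hsq : 0 < √T := Real.sqrt_pos.2 (by linarith)
    -- the logarithm
    have hlog : Real.log T' = L - ((K : ℝ) + 1) * Real.log 2 := by
      rw [hT', Real.log_div (by linarith) (by positivity), Real.log_pow]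
      push_cast
      ring
    have hlog2 : 0 < Real.log 2 := Real.log_pos (by norm_num)
    have hlog21 : Real.log 2 ≤ 1 := by
      have := Real.log_two_lt_d9
      linarith
    have hL'half : L / 2 ≤ Real.log T' := by
      have h1 : Real.log (√T) ≤ Real.log T' := Real.log_le_log hsq hK
      rw [Real.log_sqrt (by linarith)] at h1
      exact h1
    have hL'le : Real.log T' ≤ L := by
      rw [hlog]
      have : 0 ≤ ((K : ℝ) + 1) * Real.log 2 := by positivity
      linarith
    have hL'0 : 0 < Real.log T' := by linarith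
    -- the block
    have hblk := hB T' (hT0.trans hK) X (by
      rw [div_le_iff₀ hL'0]
      have : X * (L / 2) ≤ X * Real.log T' := mul_le_mul_of_nonneg_left hL'half hXL0.le
      linarith) hX1 x y hxy
    set θ := Real.log T' / L with hθ
    have hθ0 : 0 ≤ θ := by positivity
    have hθ1 : θ ≤ 1 := by
      rw [hθ, div_le_one hL0]
      exact hL'le
    have hθL : Real.log T' = θ * L := by
      rw [hθ]
      field_simp
    have hprod : ∏ i, ((y i - x i) * Real.log T' / (2 * Real.pi)) = P * θ ^ m := by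
      have : ∀ i, (y i - x i) * Real.log T' / (2 * Real.pi) = ((y i - x i) * L / (2 * Real.pi)) * θ := by
        intro i
        rw [hθL]
        ring
      simp only [this]
      rw [Finset.prod_mul_distrib, Finset.prod_const, Finset.card_univ, Fintype.card_fin]
    rw [hprod] at hblk
    have hmain : |T' * Real.log T' / (2 * Real.pi) * (P * θ ^ m) - L / (2 * Real.pi) * P * T'| ≤
        ((m : ℝ) + 1) * P * (((K : ℝ) + 1) * T') := by
      have e1 : T' * Real.log T' / (2 * Real.pi) * (P * θ ^ m) - L / (2 * Real.pi) * P * T' =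
          -(T' * P / (2 * Real.pi) * (L * (1 - θ ^ (m + 1)))) := by
        rw [hθL]
        ring
      rw [e1, abs_neg, abs_of_nonneg (by
        apply mul_nonneg (by positivity)
        apply mul_nonneg hL0.le
        have := pow_le_one₀ (n := m + 1) hθ0 hθ1
        linarith)]
      have e2 : 1 - θ ^ (m + 1) ≤ ((m : ℝ) + 1) * (1 - θ) := by
        have := one_add_mul_le_pow (a := θ - 1) (by linarith) (m + 1)
        push_cast at this
        have e3 : (1 : ℝ) + (θ - 1) = θ := by ring
        rw [e3] at this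
        linarith
      have e4 : L * (1 - θ) ≤ (K : ℝ) + 1 := by
        have : L * (1 - θ) = L - Real.log T' := by rw [hθL]; ring
        rw [this, hlog]
        have : ((K : ℝ) + 1) * Real.log 2 ≤ ((K : ℝ) + 1) * 1 := mul_le_mul_of_nonneg_left hlog21 (by positivity)
        linarith
      have e5 : L * (1 - θ ^ (m + 1)) ≤ ((m : ℝ) + 1) * ((K : ℝ) + 1) := by
        calc L * (1 - θ ^ (m + 1)) ≤ L * (((m : ℝ) + 1) * (1 - θ)) := mul_le_mul_of_nonneg_left e2 hL0.le
          _ = ((m : ℝ) + 1) * (L * (1 - θ)) := by ring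
          _ ≤ _ := mul_le_mul_of_nonneg_left e4 (by positivity)
      have e6 : T' * P / (2 * Real.pi) ≤ T' * P := div_le_self (by positivity) (by linarith)
      have e7 : 0 ≤ T' * P := by positivity
      calc T' * P / (2 * Real.pi) * (L * (1 - θ ^ (m + 1)))
          ≤ T' * P / (2 * Real.pi) * (((m : ℝ) + 1) * ((K : ℝ) + 1)) :=
            mul_le_mul_of_nonneg_left e5 (by positivity)
        _ ≤ T' * P * (((m : ℝ) + 1) * ((K : ℝ) + 1)) := mul_le_mul_of_nonneg_right e6 (by positivity)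
        _ = _ := by ring
    have herr : C0 * (X * Real.log T') ^ (m - 1) * (T' * Real.log T') ≤
        C0 * (X * L) ^ (m - 1) * L * T' := by
      have f1 : (X * Real.log T') ^ (m - 1) ≤ (X * L) ^ (m - 1) :=
        pow_le_pow_left₀ (by positivity) (mul_le_mul_of_nonneg_left hL'le hXL0.le) _
      have f2 : T' * Real.log T' ≤ T' * L := mul_le_mul_of_nonneg_left hL'le hT'0.le
      calc C0 * (X * Real.log T') ^ (m - 1) * (T' * Real.log T')
          ≤ C0 * (X * L) ^ (m - 1) * (T' * L) := by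
            apply mul_le_mul (mul_le_mul_of_nonneg_left f1 hC0.le) f2 (by positivity) (by positivity)
        _ = _ := by ring
    -- the sum
    have hsplit : ∑ n ∈ Finset.Ioc (N T') (N T), ff N g x y n =
        ∑ n ∈ Finset.Ioc (N T') (N (2 * T')), ff N g x y n + ∑ n ∈ Finset.Ioc (N (2 * T')) (N T), ff N g x y n := by
      rw [Finset.sum_Ioc_consecutive _ (hmono (by linarith)) (hmono ?_)]
      rw [h2T']
      apply div_le_self (by linarith)
      exact one_le_pow₀ (by norm_num)
    rw [hsplit]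
    rw [abs_le] at hblk ih' hmain ⊢
    push_cast
    constructor
    · linarith [hblk.1, ih'.1, hmain.1]
    · linarith [hblk.2, ih'.2, hmain.2]

end Pool.Agent.U803.MV5
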