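import Pool.Agent.U803.MV5.Comb
import Pool.Agent.U803.MV5.Sum

/-!
Package KLF of project MV5: from the block estimates to the number of `k`-tuples of zeros in large boxes.
-/

set_option autoImplicit false

namespace Pool.Agent.U803.MV5

open Finset Filter Pool.Agent.U398.MV

lemma ev_log (k : ℕ) : ∀ᶠ T : ℝ in atTop, Real.log T ^ k ≤ √T := by
  have h1 := (Real.isLittleO_pow_log_id_atTop (n := 2 * k)).bound one_pos
  filter_upwards [h1, eventually_ge_atTop 1] with T hT hT1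
  have hL : 0 ≤ Real.log T := Real.log_nonneg hT1
  rw [one_mul, id, Real.norm_of_nonneg (by positivity), Real.norm_of_nonneg (by linarith)] at hT
  apply Real.le_sqrt_of_sq_le
  rwa [← pow_mul, mul_comm]

lemma P_le {m : ℕ} {X L : ℝ} (hX : 0 ≤ X) (hL : 0 ≤ L) {x y : Fin m → ℝ}
    (hxy : ∀ i, -X ≤ x i ∧ x i ≤ y i ∧ y i ≤ X) :
    ∏ i, ((y i - x i) * L / (2 * Real.pi)) ≤ (X * L) ^ m := by
  calc ∏ i, ((y i - x i) * L / (2 * Real.pi)) ≤ ∏ _i : Fin m, (X * L) := by
        refine Finset.prod_le_prod (fun i _ => ?_) (fun i _ => ?_)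
        · apply div_nonneg _ (by positivity)
          exact mul_nonneg (by linarith [(hxy i).2.1]) hL
        · rw [div_le_iff₀ (by positivity)]
          have h1 : (y i - x i) * L ≤ (2 * X) * L := by
            apply mul_le_mul_of_nonneg_right _ hL
            linarith [(hxy i).1, (hxy i).2.2]
          have h2 := two_pi_ge
          have h3 : X * L * 6 ≤ X * L * (2 * Real.pi) := mul_le_mul_of_nonneg_left h2 (by positivity)
          have h4 : 0 ≤ X * L := by positivity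
          linarith
    _ = _ := by rw [Finset.prod_const, Finset.card_univ, Fintype.card_fin]

lemma P_nonneg {m : ℕ} {L : ℝ} (hL : 0 ≤ L) {x y : Fin m → ℝ} (hxy : ∀ i, x i ≤ y i) :
    0 ≤ ∏ i, ((y i - x i) * L / (2 * Real.pi)) := by
  refine Finset.prod_nonneg fun i _ => ?_
  apply div_nonneg _ (by positivity)
  exact mul_nonneg (by linarith [hxy i]) hL

theorem SUM {N : ℝ → ℕ} {g : ℕ → ℝ} {C1 : ℝ} (h : Cnt N g C1) (hC1 : 1 ≤ C1) {m : ℕ} (hm : 1 ≤ m) {C0 T00 : ℝ}
    (hC0 : 0 < C0) (hB : Blk N g m C0 T00) : ∃ C T0 : ℝ, 0 < C ∧ 10 ≤ T0 ∧ ∀ T : ℝ, T0 ≤ T → ∀ X : ℝ,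
    2 ≤ X * Real.log T → X ≤ 1 → ∀ x y : Fin m → ℝ, (∀ i, -X ≤ x i ∧ x i ≤ y i ∧ y i ≤ X) →
    |(∑ n ∈ Finset.Ioc 0 (N T), ff N g x y n) -
      T * Real.log T / (2 * Real.pi) * ∏ i, ((y i - x i) * Real.log T / (2 * Real.pi))| ≤
    C * (X * Real.log T) ^ (m - 1) * (T * Real.log T) := by
  obtain ⟨C2, hC2, hW⟩ := Nwin h hC1
  obtain ⟨Ta, hTa⟩ := Filter.eventually_atTop.1 (ev_log m)
  obtain ⟨Tb, hTb⟩ := Filter.eventually_atTop.1 (ev_log 1)
  refine ⟨2 * (1 + C1) * C2 ^ m + C0 + 2 * ((m : ℝ) + 1) + 2, max (max Ta Tb) (max 100 (T00 ^ 2)),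
    by positivity, ?_, ?_⟩
  · have : (100 : ℝ) ≤ max (max Ta Tb) (max 100 (T00 ^ 2)) := (le_max_left _ _).trans (le_max_right _ _)
    linarith
  intro T hT X hX2 hX1 x y hxy
  have hT1 : Ta ≤ T := (le_max_left _ _).trans ((le_max_left _ _).trans hT)
  have hT2 : Tb ≤ T := (le_max_right _ _).trans ((le_max_left _ _).trans hT)
  have hT3 : 100 ≤ T := (le_max_left _ _).trans ((le_max_right _ _).trans hT)
  have hT4 : T00 ^ 2 ≤ T := (le_max_right _ _).trans ((le_max_right _ _).trans hT)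
  have hT5 : T00 ≤ √T := Real.le_sqrt_of_sq_le hT4
  have hsq10 : 10 ≤ √T := Real.le_sqrt_of_sq_le (by linarith)
  have hsq0 : 0 < √T := by linarith
  have hss : √T * √T = T := Real.mul_self_sqrt (by linarith)
  have hLm : Real.log T ^ m ≤ √T := hTa T hT1
  have hL1' : Real.log T ≤ √T := by
    have := hTb T hT2
    rwa [pow_one] at this
  set L := Real.log T with hL
  have hL1 : 1 ≤ L := log_ge_one (by linarith)
  have hL0 : 0 < L := by linarith
  have hX0 : 0 < X := by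
    by_contra hcon
    push Not at hcon
    have : X * L ≤ 0 := mul_nonpos_of_nonpos_of_nonneg hcon hL0.le
    linarith
  have hXL1 : 1 ≤ (X * L) ^ (m - 1) := one_le_pow₀ (by linarith)
  obtain ⟨K, hK1, hK2⟩ := exists_nat_pow_near (x := √T) (y := 2) (by linarith) (by norm_num)
  have hpow : (0 : ℝ) < 2 ^ K := by positivity
  have hTK1 : √T ≤ T / 2 ^ K := by
    rw [le_div_iff₀ hpow]
    calc √T * 2 ^ K ≤ √T * √T := mul_le_mul_of_nonneg_left hK1 hsq0.le
      _ = T := hss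
  have hTK2 : T / 2 ^ K ≤ 2 * √T := by
    rw [div_le_iff₀ hpow]
    have : √T * √T ≤ √T * 2 ^ (K + 1) := mul_le_mul_of_nonneg_left hK2.le hsq0.le
    rw [pow_succ] at this
    linarith
  have hch := chain h.mono hC0 hB (by linarith : 10 ≤ T) hT5 hX2 hX1 hxy K hTK1
  rw [← hL] at hch
  set P := ∏ i, ((y i - x i) * L / (2 * Real.pi)) with hP
  have hP0 : 0 ≤ P := P_nonneg hL0.le fun i => (hxy i).2.1
  have hPle : P ≤ (X * L) ^ (m - 1) * L := by
    have h1 : P ≤ (X * L) ^ m := P_le hX0.le hL0.le hxy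
    have h2 : (X * L) ^ m = (X * L) ^ (m - 1) * (X * L) := by
      rw [← pow_succ]
      congr 1
      omega
    rw [h2] at h1
    refine h1.trans (mul_le_mul_of_nonneg_left ?_ (by positivity))
    nlinarith
  -- the low part
  set T' := T / 2 ^ K with hT'
  have hT'10 : 10 ≤ T' := hsq10.trans hTK1
  have hT'T : T' ≤ T := div_le_self (by linarith) (one_le_pow₀ (by norm_num))
  have hlow0 : 0 ≤ ∑ n ∈ Finset.Ioc 0 (N T'), ff N g x y n :=
    Finset.sum_nonneg fun n _ => ff_nonneg h.mono (fun i => (hxy i).2.1) n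
  have hlow : ∑ n ∈ Finset.Ioc 0 (N T'), ff N g x y n ≤ 2 * (1 + C1) * C2 ^ m * (T * L) := by
    have h1 : ∀ n ∈ Finset.Ioc 0 (N T'), ff N g x y n ≤ (C2 * L) ^ m := by
      intro n hn
      refine ff_le h hW (fun i => ?_) (fun i => (hxy i).2.1) (fun i => ?_) (by linarith : (10 : ℝ) ≤ T) ?_
      · linarith [(hxy i).1]
      · linarith [(hxy i).2.2]
      · rw [Finset.mem_Ioc] at hn ⊢
        exact ⟨hn.1, hn.2.trans (h.mono hT'T)⟩
    have h2 := Finset.sum_le_sum h1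
    rw [Finset.sum_const, Nat.card_Ioc, nsmul_eq_mul, Nat.sub_zero] at h2
    have h3 := Ncrude h hC1 hT'10
    have h4 : Real.log T' ≤ L := Real.log_le_log (by linarith) hT'T
    have h5 : T' * Real.log T' ≤ 2 * √T * L := by
      have := log_ge_one hT'10
      apply mul_le_mul hTK2 h4 (by linarith) (by positivity)
    have h6 : (N T' : ℝ) ≤ (1 + C1) * (2 * √T * L) := h3.trans (mul_le_mul_of_nonneg_left h5 (by linarith))
    have h7 : (C2 * L) ^ m ≤ C2 ^ m * √T := by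
      rw [mul_pow]
      exact mul_le_mul_of_nonneg_left hLm (by positivity)
    have h8 : (N T' : ℝ) * (C2 * L) ^ m ≤ (1 + C1) * (2 * √T * L) * (C2 ^ m * √T) :=
      mul_le_mul h6 h7 (by positivity) (by positivity)
    calc ∑ n ∈ Finset.Ioc 0 (N T'), ff N g x y n ≤ _ := h2
      _ ≤ (1 + C1) * (2 * √T * L) * (C2 ^ m * √T) := h8
      _ = 2 * (1 + C1) * C2 ^ m * ((√T * √T) * L) := by ring
      _ = _ := by rw [hss]
  have hsplit : ∑ n ∈ Finset.Ioc 0 (N T), ff N g x y n =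
      ∑ n ∈ Finset.Ioc 0 (N T'), ff N g x y n + ∑ n ∈ Finset.Ioc (N T') (N T), ff N g x y n := by
    rw [Finset.sum_Ioc_consecutive _ (Nat.zero_le _) (h.mono hT'T)]
  rw [hsplit]
  -- bounds for the errors
  have b1 : 2 * (1 + C1) * C2 ^ m * (T * L) ≤ 2 * (1 + C1) * C2 ^ m * ((X * L) ^ (m - 1) * (T * L)) := by
    apply mul_le_mul_of_nonneg_left _ (by positivity)
    have : 0 ≤ T * L := by positivity
    nlinarith
  have b2 : C0 * (X * L) ^ (m - 1) * L * (T - T') ≤ C0 * ((X * L) ^ (m - 1) * (T * L)) := by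
    have : C0 * (X * L) ^ (m - 1) * L * (T - T') ≤ C0 * (X * L) ^ (m - 1) * L * T := by
      apply mul_le_mul_of_nonneg_left _ (by positivity)
      linarith
    calc _ ≤ C0 * (X * L) ^ (m - 1) * L * T := this
      _ = _ := by ring
  have b3 : ((m : ℝ) + 1) * P * (2 * T - ((K : ℝ) + 2) * T') ≤ 2 * ((m : ℝ) + 1) * ((X * L) ^ (m - 1) * (T * L)) := by
    have h1 : ((m : ℝ) + 1) * P * (2 * T - ((K : ℝ) + 2) * T') ≤ ((m : ℝ) + 1) * P * (2 * T) := by
      apply mul_le_mul_of_nonneg_left _ (by positivity)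
      have : 0 ≤ ((K : ℝ) + 2) * T' := by positivity
      linarith
    have h2 : ((m : ℝ) + 1) * P * (2 * T) ≤ ((m : ℝ) + 1) * ((X * L) ^ (m - 1) * L) * (2 * T) := by
      apply mul_le_mul_of_nonneg_right _ (by linarith)
      exact mul_le_mul_of_nonneg_left hPle (by positivity)
    calc _ ≤ _ := h1
      _ ≤ _ := h2
      _ = _ := by ring
  have b4 : 0 ≤ L / (2 * Real.pi) * P * T' := by positivity
  have b5 : L / (2 * Real.pi) * P * T' ≤ 2 * ((X * L) ^ (m - 1) * (T * L)) := by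
    have h1 : L / (2 * Real.pi) ≤ L := div_le_self hL0.le (by linarith [two_pi_ge])
    calc L / (2 * Real.pi) * P * T' ≤ L * P * T' := by
          apply mul_le_mul_of_nonneg_right _ (by linarith)
          exact mul_le_mul_of_nonneg_right h1 hP0
      _ ≤ √T * ((X * L) ^ (m - 1) * L) * (2 * √T) := by
          apply mul_le_mul _ hTK2 (by linarith) (by positivity)
          exact mul_le_mul hL1' hPle hP0 hsq0.le
      _ = 2 * ((X * L) ^ (m - 1) * ((√T * √T) * L)) := by ring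
      _ = _ := by rw [hss]
  have e1 : T * L / (2 * Real.pi) * P = L / (2 * Real.pi) * P * (T - T') + L / (2 * Real.pi) * P * T' := by ring
  rw [e1]
  rw [abs_le] at hch ⊢
  have e2 : (2 * (1 + C1) * C2 ^ m + C0 + 2 * ((m : ℝ) + 1) + 2) * (X * L) ^ (m - 1) * (T * L) =
    2 * (1 + C1) * C2 ^ m * ((X * L) ^ (m - 1) * (T * L)) + C0 * ((X * L) ^ (m - 1) * (T * L)) +
    2 * ((m : ℝ) + 1) * ((X * L) ^ (m - 1) * (T * L)) + 2 * ((X * L) ^ (m - 1) * (T * L)) := by ring
  rw [e2]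
  constructor
  · linarith [hch.1]
  · linarith [hch.2]

/-- moments of the window counts -/
theorem VP {N : ℝ → ℕ} {g : ℕ → ℝ} {C1 : ℝ} (h : Cnt N g C1) (hC1 : 1 ≤ C1) (m' : ℕ)
    (hB : 1 ≤ m' → ∃ C0 T00 : ℝ, 0 < C0 ∧ Blk N g m' C0 T00) : ∃ C T0 : ℝ, 0 < C ∧ 10 ≤ T0 ∧ ∀ T : ℝ, T0 ≤ T →
    ∀ X : ℝ, 2 ≤ X * Real.log T → X ≤ 1 →
    ∑ n ∈ Finset.Ioc 0 (N T), ((N (g n + X) : ℝ) - N (g n - X)) ^ m' ≤
    C * (X * Real.log T) ^ m' * (T * Real.log T) := by
  rcases Nat.eq_zero_or_pos m' with hm | hm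
  · subst hm
    refine ⟨1 + C1, 10, by linarith, le_rfl, ?_⟩
    intro T hT X _ _
    have := Ncrude h hC1 hT
    simpa using this
  · obtain ⟨C0, T00, hC0, hB⟩ := hB hm
    obtain ⟨C, T0, hC, hT0, hS⟩ := SUM h hC1 hm hC0 hB
    refine ⟨C + 1, T0, by linarith, hT0, ?_⟩
    intro T hT X hX2 hX1
    have hL1 : 1 ≤ Real.log T := log_ge_one (hT0.trans hT)
    set L := Real.log T with hL
    have hL0 : 0 < L := by linarith
    have hX0 : 0 < X := by
      by_contra hcon
      push Not at hcon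
      have : X * L ≤ 0 := mul_nonpos_of_nonpos_of_nonneg hcon hL0.le
      linarith
    have hT10 : 10 ≤ T := hT0.trans hT
    have hxy : ∀ i : Fin m', -X ≤ (fun _ : Fin m' => -X) i ∧ (fun _ : Fin m' => -X) i ≤ (fun _ : Fin m' => X) i ∧
        (fun _ : Fin m' => X) i ≤ X := fun i => ⟨le_rfl, by dsimp only; linarith, le_rfl⟩
    have h1 := (abs_le.1 (hS T hT X hX2 hX1 (fun _ => -X) (fun _ => X) hxy)).2
    rw [← hL] at h1
    have h2 : ∀ n, ff N g (fun _ : Fin m' => -X) (fun _ => X) n = ((N (g n + X) : ℝ) - N (g n - X)) ^ m' := by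
      intro n
      unfold ff
      rw [Finset.prod_const, Finset.card_univ, Fintype.card_fin, ← sub_eq_add_neg]
    simp only [h2] at h1
    have h3 := P_le hX0.le hL0.le hxy
    have h4 : T * L / (2 * Real.pi) ≤ T * L := div_le_self (by positivity) (by linarith [two_pi_ge])
    have h5 : T * L / (2 * Real.pi) * ∏ i : Fin m', ((fun _ : Fin m' => X) i - (fun _ : Fin m' => -X) i) * L / (2 * Real.pi) ≤
        T * L * (X * L) ^ m' := by
      refine mul_le_mul h4 h3 (P_nonneg hL0.le fun i => (hxy i).2.1) (by positivity)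
    have h6 : (X * L) ^ (m' - 1) ≤ (X * L) ^ m' := pow_le_pow_right₀ (by linarith) (by omega)
    have h7 : C * (X * L) ^ (m' - 1) * (T * L) ≤ C * (X * L) ^ m' * (T * L) := by
      apply mul_le_mul_of_nonneg_right _ (by positivity)
      exact mul_le_mul_of_nonneg_left h6 hC.le
    have e1 : (C + 1) * (X * L) ^ m' * (T * L) = C * (X * L) ^ m' * (T * L) + T * L * (X * L) ^ m' := by ring
    rw [e1]
    linarith

lemma prod_shift {ι : Type} (s : Finset ι) {z : ι → ℝ} {c Z : ℝ} (hc : 0 ≤ c) (hz : ∀ i ∈ s, 0 ≤ z i ∧ z i + c ≤ Z)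
    (hZ : 0 ≤ Z) : Z * (∏ i ∈ s, (z i + c) - ∏ i ∈ s, z i) ≤ (s.card : ℝ) * c * Z ^ s.card := by
  classical
  induction s using Finset.induction_on with
  | empty => simp
  | insert a s ha ih =>
    rw [Finset.prod_insert ha, Finset.prod_insert ha, Finset.card_insert_of_notMem ha]
    have hz' : ∀ i ∈ s, 0 ≤ z i ∧ z i + c ≤ Z := fun i hi => hz i (Finset.mem_insert_of_mem hi)
    have ih' := ih hz'
    have ha' := hz a (Finset.mem_insert_self _ _)
    have hP0 : 0 ≤ ∏ i ∈ s, z i := Finset.prod_nonneg fun i hi => (hz' i hi).1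
    have hPZ : ∏ i ∈ s, z i ≤ Z ^ s.card := by
      calc ∏ i ∈ s, z i ≤ ∏ _i ∈ s, Z := Finset.prod_le_prod (fun i hi => (hz' i hi).1)
            (fun i hi => by linarith [(hz' i hi).2])
        _ = _ := by rw [Finset.prod_const]
    have hPP : ∏ i ∈ s, z i ≤ ∏ i ∈ s, (z i + c) :=
      Finset.prod_le_prod (fun i hi => (hz' i hi).1) (fun i hi => by linarith)
    push_cast
    calc Z * ((z a + c) * ∏ i ∈ s, (z i + c) - z a * ∏ i ∈ s, z i)
        = (Z * (∏ i ∈ s, (z i + c) - ∏ i ∈ s, z i)) * (z a + c) + Z * c * ∏ i ∈ s, z i := by ring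
      _ ≤ ((s.card : ℝ) * c * Z ^ s.card) * Z + Z * c * Z ^ s.card := by
          apply add_le_add
          · apply mul_le_mul ih' ha'.2 (by linarith) (by positivity)
          · exact mul_le_mul_of_nonneg_left hPZ (by positivity)
      _ = _ := by ring

lemma cast_prod {N : ℝ → ℕ} (h : Monotone N) (g : ℕ → ℝ) {m : ℕ} {x y : Fin m → ℝ} (hxy : ∀ i, x i ≤ y i) (n : ℕ) :
    ((∏ i, (N (g n + y i) - N (g n + x i)) : ℕ) : ℝ) = ff N g x y n := by
  unfold ff
  rw [Nat.cast_prod]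
  refine Finset.prod_congr rfl fun i _ => ?_
  rw [Nat.cast_sub (h (by linarith [hxy i]))]

theorem t_KLF (N : ℝ → ℕ) (g : ℕ → ℝ) : J_KLF N g := by
  intro hKLB hFO hKM hPU C1 hC1 h hMom m hm
  have KL : ∀ m : ℕ, 1 ≤ m → ∃ C0 T00 : ℝ, 0 < C0 ∧ Blk N g m C0 T00 := by
    intro m hm
    obtain ⟨C, T0, hC, _, hK⟩ := hKLB hFO hKM hPU C1 hC1 h hMom m hm
    exact ⟨C, T0, hC, hK⟩
  obtain ⟨C0, T00, hC0, hB⟩ := KL m hm
  obtain ⟨Cs, Ts, hCs, hTs, hS⟩ := SUM h hC1 hm hC0 hB
  obtain ⟨m', rfl⟩ : ∃ m', m = m' + 1 := ⟨m - 1, by omega⟩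
  obtain ⟨Cv, Tv, hCv, hTv, hV⟩ := VP h hC1 m' (KL m')
  obtain ⟨C2, hC2, hW⟩ := Nwin h hC1
  obtain ⟨Ta, hTa⟩ := Filter.eventually_atTop.1 (ev_log (m' + 2))
  simp only [Nat.add_sub_cancel] at hS ⊢
  refine ⟨((m' : ℝ) + 1) * 3 ^ m' + Cs * 8 ^ m' + ((m' : ℝ) + 1) * ((m' : ℝ) + 2) * (Cv * 8 ^ m') + C2 ^ (m' + 2),
    max (max Ts Tv) (max Ta 100), by positivity, ?_, ?_⟩
  · have : (100 : ℝ) ≤ max (max Ts Tv) (max Ta 100) := (le_max_right _ _).trans (le_max_right _ _)
    linarith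
  intro T hT A hA1 hAL α β hαβ
  have hT1 : Ts ≤ T := (le_max_left _ _).trans ((le_max_left _ _).trans hT)
  have hT2 : Tv ≤ T := (le_max_right _ _).trans ((le_max_left _ _).trans hT)
  have hT3 : Ta ≤ T := (le_max_left _ _).trans ((le_max_right _ _).trans hT)
  have hT4 : 100 ≤ T := (le_max_right _ _).trans ((le_max_right _ _).trans hT)
  have hlogpow := hTa T hT3
  have hS' := hS T hT1
  have hV' := hV T hT2
  have hW' := hW T (by linarith) T le_rfl
  set L := Real.log T with hL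
  have hL1 : 1 ≤ L := log_ge_one (by linarith)
  have hL0 : 0 < L := by linarith
  have hpi := two_pi_ge
  have hpi' := two_pi_le
  set c := L / (2 * Real.pi) with hc
  have hc0 : 0 < c := by positivity
  set X := (2 * Real.pi * A + 1) / L with hX
  have hXL : X * L = 2 * Real.pi * A + 1 := by
    rw [hX]
    field_simp
  have hXL8 : X * L ≤ 8 * A := by
    rw [hXL]
    nlinarith
  have hXL2 : 2 ≤ X * L := by
    rw [hXL]
    nlinarith
  have hX1 : X ≤ 1 := by
    rw [hX, div_le_one hL0]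
    nlinarith
  have hdiv : ∀ z : ℝ, z / c = 2 * Real.pi * z / L := by
    intro z
    rw [hc]
    field_simp
  have hlo : ∀ i, -X + 1 / L ≤ α i / c := by
    intro i
    rw [hdiv, hX]
    rw [show -((2 * Real.pi * A + 1) / L) + 1 / L = (-(2 * Real.pi * A)) / L by ring]
    apply div_le_div_of_nonneg_right _ hL0.le
    have := (hαβ i).1
    nlinarith
  have hhi : ∀ i, β i / c ≤ X := by
    intro i
    rw [hdiv, hX]
    apply div_le_div_of_nonneg_right _ hL0.le
    have := (hαβ i).2.2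
    nlinarith
  have hmid : ∀ i, α i / c ≤ β i / c := fun i => div_le_div_of_nonneg_right (hαβ i).2.1 hc0.le
  have hLinv : 0 < 1 / L := by positivity
  have hA0 : 0 < A := by linarith
  have hXLp : (X * L) ^ m' ≤ 8 ^ m' * A ^ m' := by
    rw [← mul_pow]
    exact pow_le_pow_left₀ (by linarith) hXL8 _
  have hAm : 1 ≤ A ^ m' := one_le_pow₀ hA1
  have hTL : 0 ≤ T * L := by positivity
  -- the main product
  set Z := ∏ i, (β i - α i) with hZ
  -- upper bound
  have hup : (NK g T α β : ℝ) ≤ Z * (T / (2 * Real.pi) * L) + (((m' : ℝ) + 1) * 3 ^ m' + Cs * 8 ^ m') * (A ^ m' * (T * L)) := by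
    have u1 := upper h hc0 (hc.symm ▸ rfl : Real.log T / (2 * Real.pi) = c) hLinv α β
    have u2 : (NK g T α β : ℝ) ≤ ∑ n ∈ Finset.Ioc 0 (N T), ff N g (fun i => α i / c - 1 / L) (fun i => β i / c) n := by
      have u3 : (NK g T α β : ℝ) ≤ ((∑ n ∈ Finset.Ioc 0 (N T),
          ∏ i, (N (g n + β i / c) - N (g n + (α i / c - 1 / L))) : ℕ) : ℝ) := by exact_mod_cast u1
      rw [Nat.cast_sum] at u3
      refine u3.trans (le_of_eq (Finset.sum_congr rfl fun n _ => ?_))
      exact cast_prod h.mono g (x := fun i => α i / c - 1 / L) (y := fun i => β i / c)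
        (fun i => by linarith [hmid i]) n
    have u4 := (abs_le.1 (hS' X hXL2 hX1 (fun i => α i / c - 1 / L) (fun i => β i / c)
      (fun i => ⟨by linarith [hlo i], by linarith [hmid i], hhi i⟩))).2
    have u5 : ∏ i, ((β i / c - (α i / c - 1 / L)) * L / (2 * Real.pi)) = ∏ i, ((β i - α i) + 1 / (2 * Real.pi)) := by
      refine Finset.prod_congr rfl fun i _ => ?_
      rw [hdiv, hdiv]
      field_simp
      ring
    rw [u5] at u4
    have hc1 : 1 / (2 * Real.pi) ≤ 1 := by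
      rw [div_le_one (by linarith)]
      linarith
    have hc2 : 0 ≤ 1 / (2 * Real.pi) := by positivity
    have u6 := prod_shift (Finset.univ : Finset (Fin (m' + 1))) (z := fun i => β i - α i) (c := 1 / (2 * Real.pi))
      (Z := 3 * A) hc2 (fun i _ => ⟨by linarith [(hαβ i).2.1], by
        linarith [(hαβ i).1, (hαβ i).2.2]⟩) (by linarith)
    rw [Finset.card_univ, Fintype.card_fin] at u6
    have u7 : ∏ i, ((β i - α i) + 1 / (2 * Real.pi)) - Z ≤ ((m' : ℝ) + 1) * (3 ^ m' * A ^ m') := by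
      have v1 : (((m' + 1 : ℕ) : ℝ)) * (1 / (2 * Real.pi)) * (3 * A) ^ (m' + 1) ≤
          (3 * A) * (((m' : ℝ) + 1) * (3 ^ m' * A ^ m')) := by
        push_cast
        have v2 : ((m' : ℝ) + 1) * (1 / (2 * Real.pi)) ≤ ((m' : ℝ) + 1) * 1 :=
          mul_le_mul_of_nonneg_left hc1 (by positivity)
        calc ((m' : ℝ) + 1) * (1 / (2 * Real.pi)) * (3 * A) ^ (m' + 1) ≤
            ((m' : ℝ) + 1) * 1 * (3 * A) ^ (m' + 1) := mul_le_mul_of_nonneg_right v2 (by positivity)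
          _ = _ := by rw [pow_succ, mul_pow]; ring
      exact le_of_mul_le_mul_left (u6.trans v1) (by linarith)
    have u8 : T * L / (2 * Real.pi) * ∏ i, ((β i - α i) + 1 / (2 * Real.pi)) ≤
        Z * (T / (2 * Real.pi) * L) + ((m' : ℝ) + 1) * 3 ^ m' * (A ^ m' * (T * L)) := by
      have w1 : T * L / (2 * Real.pi) * ∏ i, ((β i - α i) + 1 / (2 * Real.pi)) ≤
          T * L / (2 * Real.pi) * (Z + ((m' : ℝ) + 1) * (3 ^ m' * A ^ m')) := by
        apply mul_le_mul_of_nonneg_left _ (by positivity)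
        linarith
      have w2 : T * L / (2 * Real.pi) * (((m' : ℝ) + 1) * (3 ^ m' * A ^ m')) ≤
          T * L * (((m' : ℝ) + 1) * (3 ^ m' * A ^ m')) := by
        apply mul_le_mul_of_nonneg_right _ (by positivity)
        exact div_le_self hTL (by linarith)
      calc _ ≤ _ := w1
        _ = Z * (T / (2 * Real.pi) * L) + T * L / (2 * Real.pi) * (((m' : ℝ) + 1) * (3 ^ m' * A ^ m')) := by ring
        _ ≤ Z * (T / (2 * Real.pi) * L) + T * L * (((m' : ℝ) + 1) * (3 ^ m' * A ^ m')) := by linarith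
        _ = _ := by ring
    have u9 : Cs * (X * L) ^ m' * (T * L) ≤ Cs * 8 ^ m' * (A ^ m' * (T * L)) := by
      calc Cs * (X * L) ^ m' * (T * L) ≤ Cs * (8 ^ m' * A ^ m') * (T * L) := by
            apply mul_le_mul_of_nonneg_right _ hTL
            exact mul_le_mul_of_nonneg_left hXLp hCs.le
        _ = _ := by ring
    linarith
  -- lower bound
  have hlow : Z * (T / (2 * Real.pi) * L) - (Cs * 8 ^ m' + ((m' : ℝ) + 1) * ((m' : ℝ) + 2) * (Cv * 8 ^ m') +
      C2 ^ (m' + 2)) * (A ^ m' * (T * L)) ≤ (NK g T α β : ℝ) := by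
    have l1 := lower h hc0 (hc.symm ▸ rfl : Real.log T / (2 * Real.pi) = c) hX1 α β
      (fun i => by linarith [hlo i]) hhi
    have l2 : ∑ n ∈ Finset.Ioc 0 (N (T - 1)), ff N g (fun i => α i / c) (fun i => β i / c) n ≤
        (NK g T α β : ℝ) + ((m' : ℝ) + 1) * ((m' : ℝ) + 2) *
          ∑ n ∈ Finset.Ioc 0 (N T), ((N (g n + X) : ℝ) - N (g n - X)) ^ m' := by
      have l3 : ((∑ n ∈ Finset.Ioc 0 (N (T - 1)), ∏ i, (N (g n + β i / c) - N (g n + α i / c)) : ℕ) : ℝ) ≤
          ((NK g T α β + ((m' + 1) * (m' + 2)) *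
            ∑ n ∈ Finset.Ioc 0 (N T), (N (g n + X) - N (g n - X)) ^ m' : ℕ) : ℝ) := by exact_mod_cast l1
      have hX0 : 0 ≤ X := by positivity
      have l4 : ∀ n, (((N (g n + X) - N (g n - X)) ^ m' : ℕ) : ℝ) = ((N (g n + X) : ℝ) - N (g n - X)) ^ m' := by
        intro n
        rw [Nat.cast_pow, Nat.cast_sub (h.mono (by linarith))]
      rw [Nat.cast_sum, Nat.cast_add, Nat.cast_mul, Nat.cast_mul, Nat.cast_sum] at l3
      simp only [l4] at l3
      push_cast at l3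
      have l5 : ∀ n, ∏ i, ((N (g n + β i / c) - N (g n + α i / c) : ℕ) : ℝ) =
          ff N g (fun i => α i / c) (fun i => β i / c) n := by
        intro n
        rw [← cast_prod h.mono g (x := fun i => α i / c) (y := fun i => β i / c) hmid n, Nat.cast_prod]
      simp only [l5] at l3
      exact l3
    have l6 := (abs_le.1 (hS' X hXL2 hX1 (fun i => α i / c) (fun i => β i / c)
      (fun i => ⟨by linarith [hlo i], hmid i, hhi i⟩))).1
    have l7 : ∏ i, ((β i / c - α i / c) * L / (2 * Real.pi)) = Z := by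
      rw [hZ]
      refine Finset.prod_congr rfl fun i _ => ?_
      rw [hdiv, hdiv]
      field_simp
    rw [l7] at l6
    have l8 : ∑ n ∈ Finset.Ioc 0 (N T), ff N g (fun i => α i / c) (fun i => β i / c) n =
        ∑ n ∈ Finset.Ioc 0 (N (T - 1)), ff N g (fun i => α i / c) (fun i => β i / c) n +
        ∑ n ∈ Finset.Ioc (N (T - 1)) (N T), ff N g (fun i => α i / c) (fun i => β i / c) n := by
      rw [Finset.sum_Ioc_consecutive _ (Nat.zero_le _) (h.mono (by linarith))]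
    have l9 : ∑ n ∈ Finset.Ioc (N (T - 1)) (N T), ff N g (fun i => α i / c) (fun i => β i / c) n ≤
        C2 ^ (m' + 2) * (A ^ m' * (T * L)) := by
      have k1 : ∀ n ∈ Finset.Ioc (N (T - 1)) (N T), ff N g (fun i => α i / c) (fun i => β i / c) n ≤
          (C2 * L) ^ (m' + 1) := by
        intro n hn
        refine ff_le h hW (fun i => ?_) hmid (fun i => ?_) (by linarith : (10 : ℝ) ≤ T) ?_
        · linarith [hlo i]
        · linarith [hhi i]
        · rw [Finset.mem_Ioc] at hn ⊢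
          omega
      have k2 := Finset.sum_le_sum k1
      rw [Finset.sum_const, Nat.card_Ioc, nsmul_eq_mul] at k2
      have k3 : ((N T - N (T - 1) : ℕ) : ℝ) ≤ C2 * L := by
        rw [Nat.cast_sub (h.mono (by linarith))]
        have : (N T : ℝ) ≤ N (T + 1) := by exact_mod_cast h.mono (by linarith)
        linarith
      have k4 : ((N T - N (T - 1) : ℕ) : ℝ) * (C2 * L) ^ (m' + 1) ≤ (C2 * L) * (C2 * L) ^ (m' + 1) :=
        mul_le_mul_of_nonneg_right k3 (by positivity)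
      have k5 : (C2 * L) * (C2 * L) ^ (m' + 1) = C2 ^ (m' + 2) * L ^ (m' + 2) := by ring
      have k6 : √T ≤ T := by
        have : √T ≤ √(T ^ 2) := Real.sqrt_le_sqrt (by nlinarith)
        rwa [Real.sqrt_sq (by linarith)] at this
      have k7 : L ^ (m' + 2) ≤ A ^ m' * (T * L) := by
        have : T ≤ T * L := by nlinarith
        have : T * L ≤ A ^ m' * (T * L) := by nlinarith
        linarith
      calc _ ≤ _ := k2
        _ ≤ _ := k4
        _ = _ := k5
        _ ≤ _ := mul_le_mul_of_nonneg_left k7 (by positivity)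
    have l10 := hV' X hXL2 hX1
    have l11 : Cv * (X * L) ^ m' * (T * L) ≤ Cv * 8 ^ m' * (A ^ m' * (T * L)) := by
      calc Cv * (X * L) ^ m' * (T * L) ≤ Cv * (8 ^ m' * A ^ m') * (T * L) := by
            apply mul_le_mul_of_nonneg_right _ hTL
            exact mul_le_mul_of_nonneg_left hXLp hCv.le
        _ = _ := by ring
    have l12 : ((m' : ℝ) + 1) * ((m' : ℝ) + 2) * ∑ n ∈ Finset.Ioc 0 (N T), ((N (g n + X) : ℝ) - N (g n - X)) ^ m' ≤
        ((m' : ℝ) + 1) * ((m' : ℝ) + 2) * (Cv * 8 ^ m') * (A ^ m' * (T * L)) := by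
      calc _ ≤ ((m' : ℝ) + 1) * ((m' : ℝ) + 2) * (Cv * 8 ^ m' * (A ^ m' * (T * L))) :=
            mul_le_mul_of_nonneg_left (l10.trans l11) (by positivity)
        _ = _ := by ring
    have l13 : Cs * (X * L) ^ m' * (T * L) ≤ Cs * 8 ^ m' * (A ^ m' * (T * L)) := by
      calc Cs * (X * L) ^ m' * (T * L) ≤ Cs * (8 ^ m' * A ^ m') * (T * L) := by
            apply mul_le_mul_of_nonneg_right _ hTL
            exact mul_le_mul_of_nonneg_left hXLp hCs.le
        _ = _ := by ring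
    have l14 : T * L / (2 * Real.pi) * Z = Z * (T / (2 * Real.pi) * L) := by ring
    rw [l14] at l6
    have l15 : (Cs * 8 ^ m' + ((m' : ℝ) + 1) * ((m' : ℝ) + 2) * (Cv * 8 ^ m') + C2 ^ (m' + 2)) * (A ^ m' * (T * L)) =
      Cs * 8 ^ m' * (A ^ m' * (T * L)) + ((m' : ℝ) + 1) * ((m' : ℝ) + 2) * (Cv * 8 ^ m') * (A ^ m' * (T * L)) +
      C2 ^ (m' + 2) * (A ^ m' * (T * L)) := by ring
    rw [l15]
    linarith
  have hATL : 0 ≤ A ^ m' * (T * L) := by positivity
  rw [abs_le]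
  constructor
  · have p1 : 0 ≤ ((m' : ℝ) + 1) * 3 ^ m' * (A ^ m' * (T * L)) := by positivity
    nlinarith
  · have p1 : 0 ≤ (((m' : ℝ) + 1) * ((m' : ℝ) + 2) * (Cv * 8 ^ m') + C2 ^ (m' + 2)) * (A ^ m' * (T * L)) := by positivity
    nlinarith

end Pool.Agent.U803.MV5
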