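import Pool.Agent.U398.MV.Stm5

/-!
Package KLF of project MV5, combinatorial part: the tuples of zeros in boxes are compared with products of window
counts.
-/

set_option autoImplicit false

namespace Pool.Agent.U803.MV5

open Finset Pool.Agent.U398.MV

/-- tuple from the last index and the others -/
def tup {m : ℕ} (p : (_ : ℕ) × (Fin m → ℕ)) : Fin (m + 1) → ℕ := Fin.snoc (α := fun _ => ℕ) p.2 p.1

lemma tup_last {m : ℕ} (p : (_ : ℕ) × (Fin m → ℕ)) : tup p (Fin.last m) = p.1 := by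
  unfold tup
  simp

lemma tup_cast {m : ℕ} (p : (_ : ℕ) × (Fin m → ℕ)) (i : Fin m) : tup p i.castSucc = p.2 i := by
  unfold tup
  simp

lemma tup_inj {m : ℕ} : Function.Injective (tup (m := m)) := by
  rintro ⟨n, f⟩ ⟨n', f'⟩ h
  have h1 : n = n' := by
    have := congrFun h (Fin.last m)
    rwa [tup_last, tup_last] at this
  have h2 : f = f' := by
    funext i
    have := congrFun h i.castSucc
    rwa [tup_cast, tup_cast] at this
  subst h1
  subst h2
  rfl

/-- the tuples counted by `NK` -/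
def SK (g : ℕ → ℝ) {m : ℕ} (T : ℝ) (α β : Fin m → ℝ) : Set (Fin (m + 1) → ℕ) :=
  {j : Fin (m + 1) → ℕ | Function.Injective j ∧ (∀ i, 1 ≤ j i ∧ g (j i) ≤ T) ∧
    ∀ i : Fin m, (g (j i.castSucc) - g (j (Fin.last m))) * (Real.log T / (2 * Real.pi)) ∈ Set.Icc (α i) (β i)}

lemma NK_eq (g : ℕ → ℝ) {m : ℕ} (T : ℝ) (α β : Fin m → ℝ) : NK g T α β = (SK g T α β).ncard := rfl

lemma win_iff {c z α β : ℝ} (hc : 0 < c) : z * c ∈ Set.Icc α β ↔ α / c ≤ z ∧ z ≤ β / c := by
  rw [Set.mem_Icc, div_le_iff₀ hc, le_div_iff₀ hc]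

/-- the finset of the tuples in windows -/
def EE (N : ℝ → ℕ) (g : ℕ → ℝ) {m : ℕ} (M : ℕ) (x y : Fin m → ℝ) : Finset ((_ : ℕ) × (Fin m → ℕ)) :=
  (Finset.Ioc 0 M).sigma fun n => Fintype.piFinset fun i => Finset.Ioc (N (g n + x i)) (N (g n + y i))

lemma EE_card (N : ℝ → ℕ) (g : ℕ → ℝ) {m : ℕ} (M : ℕ) (x y : Fin m → ℝ) :
    (EE N g M x y).card = ∑ n ∈ Finset.Ioc 0 M, ∏ i, (N (g n + y i) - N (g n + x i)) := by
  unfold EE
  rw [Finset.card_sigma]
  refine Finset.sum_congr rfl fun n _ => ?_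
  rw [Fintype.card_piFinset]
  refine Finset.prod_congr rfl fun i _ => ?_
  rw [Nat.card_Ioc]

lemma sub_upper {N : ℝ → ℕ} {g : ℕ → ℝ} {C1 : ℝ} (h : Cnt N g C1) {m : ℕ} {T c δ : ℝ} (hc : 0 < c)
    (hcT : Real.log T / (2 * Real.pi) = c) (hδ : 0 < δ) (α β : Fin m → ℝ) :
    SK g T α β ⊆ ↑((EE N g (N T) (fun i => α i / c - δ) (fun i => β i / c)).image tup) := by
  intro j hj
  obtain ⟨_, hT, hw⟩ := hj
  rw [Finset.coe_image]
  refine ⟨⟨j (Fin.last m), fun i => j i.castSucc⟩, ?_, ?_⟩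
  · rw [Finset.mem_coe]
    unfold EE
    rw [Finset.mem_sigma, Fintype.mem_piFinset]
    refine ⟨?_, fun i => ?_⟩
    · rw [Finset.mem_Ioc]
      exact ⟨(hT _).1, (h.gc _ (hT _).1 _).1 (hT _).2⟩
    · have h1 := hw i
      rw [hcT, win_iff hc] at h1
      rw [Finset.mem_Ioc]
      constructor
      · by_contra hcon
        push Not at hcon
        have h2 := (h.gc _ (hT i.castSucc).1 _).2 hcon
        dsimp only at h2
        linarith [h1.1]
      · refine (h.gc _ (hT i.castSucc).1 _).1 ?_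
        dsimp only
        linarith [h1.2]
  · funext i
    refine Fin.lastCases ?_ (fun k => ?_) i
    · rw [tup_last]
    · rw [tup_cast]

lemma SK_fin {N : ℝ → ℕ} {g : ℕ → ℝ} {C1 : ℝ} (h : Cnt N g C1) {m : ℕ} {T c : ℝ} (hc : 0 < c)
    (hcT : Real.log T / (2 * Real.pi) = c) (α β : Fin m → ℝ) : (SK g T α β).Finite :=
  (Finset.finite_toSet _).subset (sub_upper h hc hcT one_pos α β)

lemma upper {N : ℝ → ℕ} {g : ℕ → ℝ} {C1 : ℝ} (h : Cnt N g C1) {m : ℕ} {T c δ : ℝ} (hc : 0 < c)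
    (hcT : Real.log T / (2 * Real.pi) = c) (hδ : 0 < δ) (α β : Fin m → ℝ) :
    NK g T α β ≤ ∑ n ∈ Finset.Ioc 0 (N T), ∏ i, (N (g n + β i / c) - N (g n + (α i / c - δ))) := by
  rw [NK_eq, ← EE_card N g (N T) (fun i => α i / c - δ) (fun i => β i / c)]
  calc (SK g T α β).ncard ≤ (↑((EE N g (N T) (fun i => α i / c - δ) (fun i => β i / c)).image tup) :
        Set (Fin (m + 1) → ℕ)).ncard := Set.ncard_le_ncard (sub_upper h hc hcT hδ α β) (Finset.finite_toSet _)
    _ = ((EE N g (N T) (fun i => α i / c - δ) (fun i => β i / c)).image tup).card := Set.ncard_coe_finset _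
    _ ≤ _ := Finset.card_image_le

open Classical in
lemma bad_one (m' : ℕ) (W : Finset ℕ) (n : ℕ) (i : Fin (m' + 1)) (b : Fin (m' + 2)) (hb : b ≠ i.castSucc) :
    ((Fintype.piFinset (fun _ : Fin (m' + 1) => W)).filter (fun f => f i = tup ⟨n, f⟩ b)).card ≤ W.card ^ m' := by
  have h1 : (Fintype.piFinset (fun _ : Fin m' => W)).card = W.card ^ m' := by
    rw [Fintype.card_piFinset, Finset.prod_const, Finset.card_univ, Fintype.card_fin]
  rw [← h1]
  refine Finset.card_le_card_of_injOn (fun f k => f (i.succAbove k)) ?_ ?_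
  · intro f hf
    rw [Finset.mem_coe, Finset.mem_filter, Fintype.mem_piFinset] at hf
    rw [Finset.mem_coe, Fintype.mem_piFinset]
    exact fun k => hf.1 _
  · intro f hf f' hf' hff
    rw [Finset.mem_coe, Finset.mem_filter] at hf hf'
    have h2 : ∀ l, l ≠ i → f l = f' l := by
      intro l hl
      obtain ⟨k, rfl⟩ := Fin.exists_succAbove_eq hl
      exact congrFun hff k
    have h3 : tup ⟨n, f⟩ b = tup ⟨n, f'⟩ b := by
      revert hb
      refine Fin.lastCases ?_ (fun l => ?_) b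
      · intro _
        rw [tup_last, tup_last]
      · intro hb
        rw [tup_cast, tup_cast]
        exact h2 l fun h => hb (by rw [h])
    funext l
    by_cases hl : l = i
    · rw [hl, hf.2, hf'.2, h3]
    · exact h2 l hl

open Classical in
lemma bad_card (m' : ℕ) (W : Finset ℕ) (n : ℕ) :
    ((Fintype.piFinset (fun _ : Fin (m' + 1) => W)).filter
      (fun f => ¬ Function.Injective (tup ⟨n, f⟩))).card ≤ ((m' + 1) * (m' + 2)) * W.card ^ m' := by
  have hsub : (Fintype.piFinset (fun _ : Fin (m' + 1) => W)).filter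
      (fun f => ¬ Function.Injective (tup ⟨n, f⟩)) ⊆
      (Finset.univ : Finset (Fin (m' + 1) × Fin (m' + 2))).biUnion (fun p => if p.2 = p.1.castSucc then ∅ else
        (Fintype.piFinset (fun _ : Fin (m' + 1) => W)).filter (fun f => f p.1 = tup ⟨n, f⟩ p.2)) := by
    intro f hf
    rw [Finset.mem_filter] at hf
    obtain ⟨hf1, hf2⟩ := hf
    unfold Function.Injective at hf2
    push Not at hf2
    obtain ⟨a, b, hab, hne⟩ := hf2
    rw [Finset.mem_biUnion]
    have key : ∀ a b : Fin (m' + 2), tup ⟨n, f⟩ a = tup ⟨n, f⟩ b → a ≠ b → a ≠ Fin.last _ →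
        ∃ p ∈ (Finset.univ : Finset (Fin (m' + 1) × Fin (m' + 2))), f ∈ (if p.2 = p.1.castSucc then ∅ else
        (Fintype.piFinset (fun _ : Fin (m' + 1) => W)).filter (fun f => f p.1 = tup ⟨n, f⟩ p.2)) := by
      intro a b hab hne ha
      obtain ⟨i, rfl⟩ := Fin.exists_castSucc_eq.2 ha
      refine ⟨(i, b), Finset.mem_univ _, ?_⟩
      rw [if_neg (fun h => hne h.symm), Finset.mem_filter]
      refine ⟨hf1, ?_⟩
      rw [tup_cast] at hab
      exact hab
    by_cases ha : a = Fin.last _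
    · exact key b a hab.symm hne.symm (fun h => hne (by rw [ha, h]))
    · exact key a b hab hne ha
  refine (Finset.card_le_card hsub).trans ?_
  have h2 : ((m' + 1) * (m' + 2)) = (Finset.univ : Finset (Fin (m' + 1) × Fin (m' + 2))).card := by
    rw [Finset.card_univ, Fintype.card_prod, Fintype.card_fin, Fintype.card_fin]
  rw [h2]
  refine Finset.card_biUnion_le_card_mul _ _ _ ?_
  intro p _
  split_ifs with h
  · simp
  · exact bad_one m' W n p.1 p.2 h

open Classical in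
lemma lower {N : ℝ → ℕ} {g : ℕ → ℝ} {C1 : ℝ} (h : Cnt N g C1) {m' : ℕ} {T c X : ℝ} (hc : 0 < c)
    (hcT : Real.log T / (2 * Real.pi) = c) (hX : X ≤ 1) (α β : Fin (m' + 1) → ℝ)
    (hα : ∀ i, -X ≤ α i / c) (hβ : ∀ i, β i / c ≤ X) :
    ∑ n ∈ Finset.Ioc 0 (N (T - 1)), ∏ i, (N (g n + β i / c) - N (g n + α i / c)) ≤
      NK g T α β + ((m' + 1) * (m' + 2)) * ∑ n ∈ Finset.Ioc 0 (N T), (N (g n + X) - N (g n - X)) ^ m' := by
  rw [← EE_card N g (N (T - 1)) (fun i => α i / c) (fun i => β i / c)]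
  rw [← Finset.card_filter_add_card_filter_not (s := EE N g (N (T - 1)) (fun i => α i / c) (fun i => β i / c))
    (fun p => Function.Injective (tup p))]
  have hmono := h.mono
  refine add_le_add ?_ ?_
  · rw [← Finset.card_image_of_injective _ (tup_inj (m := m' + 1)), NK_eq, ← Set.ncard_coe_finset]
    refine Set.ncard_le_ncard ?_ (SK_fin h hc hcT α β)
    intro j hj
    rw [Finset.mem_coe, Finset.mem_image] at hj
    obtain ⟨p, hp, rfl⟩ := hj
    rw [Finset.mem_filter] at hp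
    obtain ⟨hp1, hp2⟩ := hp
    unfold EE at hp1
    rw [Finset.mem_sigma, Fintype.mem_piFinset, Finset.mem_Ioc] at hp1
    obtain ⟨⟨hn0, hnT⟩, hpi⟩ := hp1
    have hgn : g p.1 ≤ T - 1 := (h.gc _ hn0 _).2 hnT
    have hcoord : ∀ i, 1 ≤ p.2 i ∧ g (p.2 i) ≤ T ∧ g p.1 + α i / c ≤ g (p.2 i) ∧ g (p.2 i) ≤ g p.1 + β i / c := by
      intro i
      have h1 := hpi i
      rw [Finset.mem_Ioc] at h1
      dsimp only at h1
      have h2 : 1 ≤ p.2 i := by omega
      have h3 : g (p.2 i) ≤ g p.1 + β i / c := (h.gc _ h2 _).2 h1.2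
      have h4 : ¬ g (p.2 i) ≤ g p.1 + α i / c := fun h5 => by
        have := (h.gc _ h2 _).1 h5
        omega
      push Not at h4
      exact ⟨h2, by linarith [hβ i], h4.le, h3⟩
    refine ⟨hp2, ?_, ?_⟩
    · intro i
      refine Fin.lastCases ?_ (fun k => ?_) i
      · rw [tup_last]
        exact ⟨hn0, by linarith⟩
      · rw [tup_cast]
        exact ⟨(hcoord k).1, (hcoord k).2.1⟩
    · intro i
      rw [hcT, win_iff hc, tup_last, tup_cast]
      have := hcoord i
      constructor <;> linarith [this.2.2.1, this.2.2.2]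
  · have hsub : (EE N g (N (T - 1)) (fun i => α i / c) (fun i => β i / c)).filter
        (fun p => ¬ Function.Injective (tup p)) ⊆ (Finset.Ioc 0 (N T)).sigma fun n =>
        (Fintype.piFinset (fun _ : Fin (m' + 1) => Finset.Ioc (N (g n - X)) (N (g n + X)))).filter
          (fun f => ¬ Function.Injective (tup ⟨n, f⟩)) := by
      intro p hp
      rw [Finset.mem_filter] at hp
      obtain ⟨hp1, hp2⟩ := hp
      unfold EE at hp1
      rw [Finset.mem_sigma, Fintype.mem_piFinset, Finset.mem_Ioc] at hp1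
      obtain ⟨⟨hn0, hnT⟩, hpi⟩ := hp1
      rw [Finset.mem_sigma, Finset.mem_filter, Fintype.mem_piFinset, Finset.mem_Ioc]
      refine ⟨⟨hn0, hnT.trans (hmono (by linarith))⟩, fun i => ?_, hp2⟩
      have h1 := hpi i
      rw [Finset.mem_Ioc] at h1 ⊢
      constructor
      · refine lt_of_le_of_lt (hmono ?_) h1.1
        linarith [hα i]
      · refine h1.2.trans (hmono ?_)
        linarith [hβ i]
    refine (Finset.card_le_card hsub).trans ?_
    rw [Finset.card_sigma, Finset.mul_sum]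
    refine Finset.sum_le_sum fun n _ => ?_
    have := bad_card m' (Finset.Ioc (N (g n - X)) (N (g n + X))) n
    rwa [Nat.card_Ioc] at this

end Pool.Agent.U803.MV5
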